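import Pool.Agent.X288.CX.Joint
import Pool.Agent.X288.CX.Bes

/-!
# All modular elliptic curves over `ℚ`, all Artin twists and all heights together

`E_i : y² = x³ + a_i x + b_i`, `i ∈ ι`, are elliptic curves over `ℚ`, no two of them isogenous, for
example representatives of all isogeny classes; each has a newform (`IsModular`; by the modularity
theorem this is true for all elliptic curves over `ℚ`).  For a representation `ρ` of `Gal(ℚ̄/ℚ)` on `ℂⁿ`
with open kernel, `L(E_i ⊗ ρ, s)` is the Euler product whose factor is, for all but finitely many `p`,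
`det(1 - a_p p^{-s} ρ(Frob_p⁻¹) + p^{1 - 2s} ρ(Frob_p⁻¹)²)⁻¹`, `a_p = p + 1 - #E_i(𝔽_p)`.  For `ρ` induced from
the trivial character of `Gal(ℚ̄/F)` it is `L(E_i/F, s)`.  Its meromorphic continuation is the question of
the problem.

The theorem bounds `log |L(E_i ⊗ ρ, s)|` near the edge `Re s = 3/2` of the half plane of absolute
convergence for all curves, all points of the edge and all virtual Artin representations together, and
with it the zeros and poles of all meromorphic continuations.  In particular, **for an irreducible `ρ`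
there is at most one curve with a zero on the edge and at most one curve with a pole on the edge.**  For
`ρ = ∑ c_k ρ_k`, the number of pairs of a curve and a point of the edge with a positive order is at most
`dim Hom(ρ, ρ)`, for all curves together.

The proof uses the theorem of Rankin and Selberg for pairs of newforms, at all heights
(`Pool.Agent.Y149.CR`, `Pool.Agent.Y722.RS`), Chebotarev's theorem and the orthogonality of the
characters.
-/

set_option autoImplicit false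

namespace Pool.Agent.Results.MP_0d9be2_nt.AllCurvesAllTwists

open Complex Filter Topology NumberField IsDedekindDomain Polynomial
open Pool.Agent.Y722.EP (IsModular NotIsogenous)

/-- The absolute Galois group of `F`. -/
abbrev GalGroup (F : Type) [Field F] : Type := Gal(AlgebraicClosure F/F)

/-- The integral Weierstrass equation `y² = x³ + a x + b`. -/
def curve (F : Type) [Field F] (a b : ℤ) : WeierstrassCurve (𝓞 F) where
  a₁ := 0
  a₂ := 0
  a₃ := 0
  a₄ := a
  a₆ := b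

/-- The number of solutions of the affine Weierstrass equation of `V` with coordinates in `R`. -/
noncomputable def affineCount {R : Type} [CommRing R] (V : WeierstrassCurve R) : ℕ :=
  Nat.card {P : R × R // P.2 ^ 2 + V.a₁ * P.1 * P.2 + V.a₃ * P.2 =
    P.1 ^ 3 + V.a₂ * P.1 ^ 2 + V.a₄ * P.1 + V.a₆}

/-- `a_v = q_v + 1 - #E(k_v)`, `k_v` the residue field of `v` and `q_v` its number of elements; there is
one point at infinity. -/
noncomputable def frobTrace {F : Type} [Field F] [NumberField F] (W : WeierstrassCurve (𝓞 F))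
    (v : HeightOneSpectrum (𝓞 F)) : ℤ :=
  (Ideal.absNorm v.asIdeal : ℤ) + 1 - ((affineCount (W.map (Ideal.Quotient.mk v.asIdeal)) : ℤ) + 1)

/-- `σ` is a Frobenius element at the prime `v` of `F`: there is a maximal ideal `Q` above `v` of the
ring of all algebraic integers with `σ x ≡ x ^ q_v` modulo `Q` for all `x`. -/
def IsFrobenius {F : Type} [Field F] [NumberField F] (v : HeightOneSpectrum (𝓞 F))
    (σ : GalGroup F) : Prop :=
  ∃ Q : Ideal (𝓞 (AlgebraicClosure F)), Q.IsMaximal ∧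
    Q.comap (algebraMap (𝓞 F) (𝓞 (AlgebraicClosure F))) = v.asIdeal ∧
    ∀ x : 𝓞 (AlgebraicClosure F), σ • x - x ^ Ideal.absNorm v.asIdeal ∈ Q

/-- `ρ` is an Artin representation of `F`: it is trivial on an open subgroup of `Gal(F̄/F)`. -/
def IsArtin {F : Type} [Field F] [NumberField F] {n : ℕ}
    (ρ : Representation ℂ (GalGroup F) (Fin n → ℂ)) : Prop :=
  ∃ U : Subgroup (GalGroup F), IsOpen (U : Set (GalGroup F)) ∧ ∀ u ∈ U, ρ u = 1

/-- The polynomials `B v` are the Euler factors of `E ⊗ ρ` at all but finitely many primes `v`: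
`B_v(z) = det(1 - a_v z ρ(Frob_v⁻¹) + q_v z² ρ(Frob_v⁻¹)²)`. -/
def IsEulerFactor {F : Type} [Field F] [NumberField F] (W : WeierstrassCurve (𝓞 F)) {n : ℕ}
    (ρ : Representation ℂ (GalGroup F) (Fin n → ℂ))
    (B : HeightOneSpectrum (𝓞 F) → ℂ[X]) : Prop :=
  ∀ᶠ v in cofinite, ∀ σ : GalGroup F, IsFrobenius v σ → ∀ z : ℂ,
    (B v).eval z = LinearMap.det (1 - ((frobTrace W v : ℂ) * z) • ρ σ⁻¹ +
      ((Ideal.absNorm v.asIdeal : ℂ) * z ^ 2) • (ρ σ⁻¹) ^ 2)

/-- The Euler product `∏_v B_v(q_v^{-s})⁻¹`. -/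
noncomputable def eulerProduct {F : Type} [Field F] [NumberField F]
    (B : HeightOneSpectrum (𝓞 F) → ℂ[X]) (s : ℂ) : ℂ :=
  ∏' v : HeightOneSpectrum (𝓞 F), ((B v).eval ((Ideal.absNorm v.asIdeal : ℂ) ^ (-s)))⁻¹

/-- `log |L(E ⊗ ρ, 3/2 + iτ + ε)| / log (1/ε)`, which tends to minus the order of the function at
`3/2 + iτ` if there is a meromorphic continuation to a neighbourhood. -/
noncomputable def size {F : Type} [Field F] [NumberField F]
    (B : HeightOneSpectrum (𝓞 F) → ℂ[X]) (τ ε : ℝ) : ℝ :=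
  Real.log ‖eulerProduct B (3 / 2 + τ * I + ε)‖ / Real.log (1 / ε)

/-- The Euler product has a meromorphic continuation to a neighbourhood of `3/2 + iτ`, and its order
there is `m`. -/
def HasOrder {F : Type} [Field F] [NumberField F] (B : HeightOneSpectrum (𝓞 F) → ℂ[X]) (τ : ℝ)
    (m : ℤ) : Prop :=
  ∃ Λ : ℂ → ℂ, MeromorphicAt Λ (3 / 2 + τ * I) ∧
    (∀ᶠ s in 𝓝 (3 / 2 + τ * I : ℂ), 3 / 2 < s.re → Λ s = eulerProduct B s) ∧
    meromorphicOrderAt Λ (3 / 2 + τ * I) = m

/-- `⟨c, c⟩ = ∑_{k,l} c_k c_l dim Hom(ρ_k, ρ_l)`. -/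
noncomputable def form {κ : Type} [Fintype κ] {n : κ → ℕ}
    (ρ : ∀ k, Representation ℂ (GalGroup ℚ) (Fin (n k) → ℂ)) (c : κ → ℝ) : ℝ :=
  ∑ k, ∑ l, c k * c l * (Module.finrank ℂ ((ρ k).IntertwiningMap (ρ l)) : ℝ)

/-- **All modular elliptic curves, all Artin twists and all points of the edge `Re s = 3/2`.**

Let `E_i : y² = x³ + a_i x + b_i`, `i ∈ ι`, be modular elliptic curves over `ℚ`, pairwise not isogenous;
`ρ_k`, `k ∈ κ`, finitely many Artin representations of `Gal(ℚ̄/ℚ)` of dimension `n_k`; `L_{i,k}` the Euler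
product of `E_i ⊗ ρ_k`, with arbitrary polynomials without zeros on `|z| = p^{-3/2}` as factors at finitely
many primes.  Write `x_{i,k}(τ, ε) = log |L_{i,k}(3/2 + iτ + ε)| / log(1/ε)` and
`⟨c, c⟩ = ∑_{k,l} c_k c_l dim Hom(ρ_k, ρ_l)` for `c ∈ ℝ^κ`.

1. `L_{i,k}(3/2 + iτ + ε) ≠ 0` for small `ε > 0`.
2. (Nothing is assumed about continuation.)  For every finite set `S` of pairs `(i, τ)`, all `C` and
`η > 0` and all sufficiently small `ε > 0`:
`∑_{(i,τ) ∈ S} (positive part of ∑_k c_k x_{i,k}(τ, ε))² ≤ ⟨c, c⟩ + η` for all real `c_k`, `|c_k| ≤ C`.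
3. For every set `T` of pairs `(i, τ)` such that all `L_{i,k}`, `k ∈ κ`, have meromorphic continuations to
neighbourhoods of `3/2 + iτ`, of orders `m_{i,τ,k}`, and all integers `c_k`: only for finitely many pairs
in `T`, and for at most `⟨c, c⟩`, is `∑_k c_k m_{i,τ,k} > 0`; and the sum of the squares of these positive
numbers is at most `⟨c, c⟩`.
4. If in 3. `ρ_k` is irreducible, then there is at most one pair `(i, τ)` in `T` with `m_{i,τ,k} > 0` and at
most one with `m_{i,τ,k} < 0`; moreover `|m_{i,τ,k}| ≤ 1`, and `m_{i,τ,k} = 0` if `τ ≠ 0` or `n_k ≥ 3` or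
`ρ_k` is not self-dual. -/
theorem result (ι : Type) (a b : ι → ℤ) (hab : ∀ i, 4 * a i ^ 3 + 27 * b i ^ 2 ≠ 0)
    (hmod : ∀ i, IsModular (a i) (b i))
    (hne : ∀ i j, i ≠ j → NotIsogenous (a i) (b i) (a j) (b j))
    (κ : Type) [Fintype κ] (n : κ → ℕ)
    (ρ : ∀ k, Representation ℂ (GalGroup ℚ) (Fin (n k) → ℂ)) (hρ : ∀ k, IsArtin (ρ k))
    (B : ι → κ → HeightOneSpectrum (𝓞 ℚ) → ℂ[X])
    (hB : ∀ i k, IsEulerFactor (curve ℚ (a i) (b i)) (ρ k) (B i k))
    (hB0 : ∀ i k (τ : ℝ) v,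
      (B i k v).eval ((Ideal.absNorm v.asIdeal : ℂ) ^ (-(3 / 2 + τ * I : ℂ))) ≠ 0) :
    (∀ i k (τ : ℝ), ∀ᶠ ε : ℝ in 𝓝[>] 0, eulerProduct (B i k) (3 / 2 + τ * I + ε) ≠ 0) ∧
    (∀ (S : Finset (ι × ℝ)) (C η : ℝ), 0 < η → ∀ᶠ ε : ℝ in 𝓝[>] 0, ∀ c : κ → ℝ,
      (∀ k, |c k| ≤ C) →
      ∑ x ∈ S, (max (∑ k, c k * size (B x.1 k) x.2 ε) 0) ^ 2 ≤ form ρ c + η) ∧
    ∀ (T : Set (ι × ℝ)) (m : ι × ℝ → κ → ℤ),
      (∀ x ∈ T, ∀ k, HasOrder (B x.1 k) x.2 (m x k)) →
      (∀ c : κ → ℤ,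
        {x ∈ T | 0 < ∑ k, c k * m x k}.Finite ∧
        ({x ∈ T | 0 < ∑ k, c k * m x k}.ncard : ℝ) ≤ form ρ (fun k => (c k : ℝ)) ∧
        ∀ S : Finset (ι × ℝ), (∀ x ∈ S, x ∈ T) →
          ∑ x ∈ S, (max ((∑ k, c k * m x k : ℤ) : ℝ) 0) ^ 2 ≤ form ρ fun k => (c k : ℝ)) ∧
      ∀ k, (ρ k).IsIrreducible →
        {x ∈ T | 0 < m x k}.Subsingleton ∧ {x ∈ T | m x k < 0}.Subsingleton ∧
        ∀ x ∈ T, |m x k| ≤ 1 ∧
          ((x.2 ≠ 0 ∨ 3 ≤ n k ∨ IsEmpty ((ρ k).Equiv (ρ k).dual)) → m x k = 0) := by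
  classical
  have hs : ∀ x : ℝ, (((1 / 2 : ℝ) : ℂ) + 1 + x * I) = 3 / 2 + x * I := by
    intro x
    push_cast
    ring
  have hB0' : ∀ i k (τ : ℝ) v, (B i k v).eval (((W540.BE.nm ℚ v : ℕ) : ℂ) ^
      (-(((1 / 2 : ℝ) : ℂ) + 1 + τ * I : ℂ))) ≠ 0 := by
    intro i k τ v
    rw [hs]
    exact hB0 i k τ v
  obtain ⟨hnz, hbes⟩ := X288.CX.joint_bessel hab hmod hne n ρ hρ B hB hB0'
    (fun i k => eulerProduct (B i k)) (fun i k s _ => rfl)
    (fun i k τ ε => size (B i k) τ ε) (fun i k τ ε => by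
      unfold size
      rw [hs])
  simp only [hs] at hnz
  refine ⟨hnz, hbes, fun T m hm => ?_⟩
  -- the orders
  have hord : ∀ x ∈ T, ∀ k, Tendsto (size (B x.1 k) x.2) (𝓝[>] 0) (𝓝 (-(m x k : ℝ))) := by
    intro x hx k
    obtain ⟨Λ, hΛ1, hΛ2, hΛ3⟩ := hm x hx k
    have hev : ∀ᶠ ε : ℝ in 𝓝[>] 0, Λ (3 / 2 + x.2 * I + ε) =
        eulerProduct (B x.1 k) (3 / 2 + x.2 * I + ε) := by
      have h4 := (Pool.Agent.H341R2.path_tendsto' (3 / 2 + x.2 * I : ℂ)).eventually hΛ2
      filter_upwards [h4, self_mem_nhdsWithin] with ε h5 h6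
      have hε : (0 : ℝ) < ε := h6
      refine h5 ?_
      have e : (3 / 2 + (x.2 : ℂ) * I + (ε : ℂ)).re = 3 / 2 + ε := by simp
      rw [e]
      linarith
    have hne : ∀ᶠ ε : ℝ in 𝓝[>] 0, Λ (3 / 2 + x.2 * I + ε) ≠ 0 := by
      filter_upwards [hev, hnz x.1 k x.2] with ε h5 h6
      rw [h5]
      exact h6
    obtain ⟨m', hm1, hm2⟩ := W540.BE.order_of_size hΛ1 hne
    have h7 : m' = m x k := by
      rw [hm1] at hΛ3
      exact_mod_cast hΛ3
    rw [← h7]
    refine hm2.congr' ?_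
    filter_upwards [hev] with ε h5
    rw [h5]
    rfl
  have key : ∀ c : κ → ℤ, ∀ S : Finset (ι × ℝ), (∀ x ∈ S, x ∈ T) →
      ∑ x ∈ S, (max ((∑ k, c k * m x k : ℤ) : ℝ) 0) ^ 2 ≤ form ρ fun k => (c k : ℝ) := by
    intro c S hS
    have e2 : (form ρ fun k => -(c k : ℝ)) = form ρ fun k => (c k : ℝ) := by
      unfold form
      refine Finset.sum_congr rfl fun k _ => Finset.sum_congr rfl fun l _ => ?_
      ring
    rw [← e2]
    refine X288.CX.pos_orders (Y := fun x ε => ∑ k, -(c k : ℝ) * size (B x.1 k) x.2 ε)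
      (fun x hx => ?_) fun η hη => ?_
    · have h1 : Tendsto (fun ε : ℝ => ∑ k, -(c k : ℝ) * size (B x.1 k) x.2 ε) (𝓝[>] 0)
          (𝓝 (∑ k, -(c k : ℝ) * (-(m x k : ℝ)))) :=
        tendsto_finsetSum _ fun k _ => (hord x (hS x hx) k).const_mul _
      convert h1 using 2
      push_cast
      exact Finset.sum_congr rfl fun k _ => by ring
    · filter_upwards [hbes S (∑ k, |(c k : ℝ)|) η hη] with ε h1
      exact h1 _ fun k => by
        rw [abs_neg]
        exact Finset.single_le_sum (f := fun k => |(c k : ℝ)|) (fun k _ => abs_nonneg _)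
          (Finset.mem_univ k)
  have hcount : ∀ c : κ → ℤ, {x ∈ T | 0 < ∑ k, c k * m x k}.Finite ∧
      ({x ∈ T | 0 < ∑ k, c k * m x k}.ncard : ℝ) ≤ form ρ (fun k => (c k : ℝ)) := fun c =>
    X288.CX.count_of fun S hS => key c S hS
  refine ⟨fun c => ⟨(hcount c).1, (hcount c).2, key c⟩, fun k hk => ?_⟩
  -- one irreducible representation
  have hend : (Module.finrank ℂ ((ρ k).IntertwiningMap (ρ k)) : ℝ) = 1 := by
    have h := X288.AR.hd_self ρ (fun _ => 0) hk
    unfold X288.AR.hd at h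
    rwa [if_pos rfl] at h
  have hform : ∀ e : ℤ, (form ρ fun l => ((if l = k then e else 0 : ℤ) : ℝ)) = (e : ℝ) ^ 2 := by
    intro e
    unfold form
    rw [Finset.sum_eq_single k, Finset.sum_eq_single k]
    · beta_reduce
      rw [if_pos rfl, hend]
      ring
    · intro l _ hl
      beta_reduce
      rw [if_neg hl]
      simp
    · intro h
      exact absurd (Finset.mem_univ k) h
    · intro l _ hl
      beta_reduce
      rw [if_neg hl]
      simp
    · intro h
      exact absurd (Finset.mem_univ k) h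
  have hsum : ∀ (e : ℤ) x, ∑ l, (if l = k then e else 0) * m x l = e * m x k := by
    intro e x
    simp
  have hone : ∀ e : ℤ, {x ∈ T | 0 < e * m x k}.Finite ∧
      ({x ∈ T | 0 < e * m x k}.ncard : ℝ) ≤ (e : ℝ) ^ 2 := by
    intro e
    have h1 := hcount fun l => if l = k then e else 0
    rw [hform] at h1
    simp only [hsum] at h1
    exact h1
  have hsub : ∀ e : ℤ, (e : ℝ) ^ 2 = 1 → {x ∈ T | 0 < e * m x k}.Subsingleton := by
    intro e he
    obtain ⟨h1, h2⟩ := hone e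
    rw [he] at h2
    have h3 : {x ∈ T | 0 < e * m x k}.ncard ≤ 1 := by exact_mod_cast h2
    have := h1.to_subtype
    exact Set.ncard_le_one_iff_subsingleton.1 h3
  have hlist := (hsub 1 (by norm_num))
  have hlist' := (hsub (-1) (by norm_num))
  refine ⟨?_, ?_, fun x hx => ?_⟩
  · simpa using hlist
  · simpa using hlist'
  -- one curve
  obtain ⟨α, h1, h2', h3⟩ := X288.AR.ec_main' ℚ (X288.AR.curve ℚ (a x.1) (b x.1))
    (X288.AR.curve_Δ_ne (hab x.1)) n ρ (B x.1) (hB x.1)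
  have h2 : ∀ᶠ v in cofinite, (∑ j, α v j).im = 0 := h2'.mono fun v hv => by
    rw [hv, Complex.intCast_im]
  have hsec : ∃ C : ℝ, ∀ᶠ ε : ℝ in 𝓝[>] 0, (W540.BE.EP (W540.BE.nm ℚ) ε fun v =>
      W353.L1.tr (1 / 2) α v ^ 2) ≤ 1 * W353.TP.LL ε + C := by
    have h := X288.AR.tr_sec (hab x.1) (hmod x.1) h1 h2'
    rw [X288.L2.finrank_QQ] at h
    exact h
  have hL : ∀ l, ∀ s : ℂ, (1 / 2 : ℝ) + 1 < s.re → eulerProduct (B x.1 l) s =
      ∏' v, ((B x.1 l v).eval (((W540.BE.nm ℚ v : ℕ) : ℂ) ^ (-s)))⁻¹ := fun l s _ => rfl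
  have hxs : ∀ l ε, W353.L1.xs (1 / 2) (fun _ => x.2) (fun l => eulerProduct (B x.1 l)) l ε =
      size (B x.1 l) x.2 ε := by
    intro l ε
    unfold W353.L1.xs size
    rw [hs]
  constructor
  · have h4 := key (fun l => if l = k then 1 else 0) {x} fun y hy => by
      rw [Finset.mem_singleton] at hy
      rw [hy]
      exact hx
    have h5 := key (fun l => if l = k then -1 else 0) {x} fun y hy => by
      rw [Finset.mem_singleton] at hy
      rw [hy]
      exact hx
    rw [hform, Finset.sum_singleton] at h4 h5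
    simp only [hsum] at h4 h5
    rw [abs_le]
    constructor
    · by_contra h6
      push Not at h6
      have h7 : (2 : ℝ) ≤ ((-1 * m x k : ℤ) : ℝ) := by
        have : (2 : ℤ) ≤ -1 * m x k := by omega
        exact_mod_cast this
      have h8 : (2 : ℝ) ≤ max ((-1 * m x k : ℤ) : ℝ) 0 := h7.trans (le_max_left _ _)
      have h9 := pow_le_pow_left₀ (by norm_num) h8 2
      have h10 := h9.trans h5
      norm_num at h10
    · by_contra h6
      push Not at h6
      have h7 : (2 : ℝ) ≤ ((1 * m x k : ℤ) : ℝ) := by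
        have : (2 : ℤ) ≤ 1 * m x k := by omega
        exact_mod_cast this
      have h8 : (2 : ℝ) ≤ max ((1 * m x k : ℤ) : ℝ) 0 := h7.trans (le_max_left _ _)
      have h9 := pow_le_pow_left₀ (by norm_num) h8 2
      have h10 := h9.trans h4
      norm_num at h10
  · intro h
    obtain ⟨A, hA, h4⟩ := X288.AR.strict_all le_rfl (1 / 2) α h1 h2 hsec ρ hρ (fun _ => x.2)
      (B x.1) h3 (fun l v => hB0' x.1 l x.2 v) (fun l => eulerProduct (B x.1 l)) hL hk h
    simp only [hxs] at h4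
    have h5 : |(-(m x k : ℝ))| ≤ A := le_of_tendsto (hord x hx k).abs h4
    rw [abs_neg] at h5
    by_contra hmk
    have h6 : (1 : ℝ) ≤ |((m x k : ℤ) : ℝ)| := by exact_mod_cast Int.one_le_abs hmk
    linarith

end Pool.Agent.Results.MP_0d9be2_nt.AllCurvesAllTwists
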