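import Pool.Agent.X287.Full
import Pool.Agent.X287.Kit2

/-!
# Continuation of L-series of elliptic curves: growth exponents of finite sums

`K` is any number field and `E : y² = x³ + a x + b`, `a, b ∈ 𝓞_K`, any elliptic curve over `K` (every elliptic curve
over `K` has such an equation). The `L`-series is the COMPLETE one,

`L(E, s) = ∏_v (1 - c_v q_v^{-s} + e_v q_v^{-2s})⁻¹`, `Re s > 3/2`, all finite places `v`,

where `c_v = q_v - N_v` (`N_v` the number of affine points of the equation modulo `v`) and `e_v = q_v` if `v` does not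
divide `6 (4 a³ + 27 b²)`; at the finitely many other places `c_v, e_v` are the usual numbers, or any integers such
that the reciprocal roots of the local polynomial have absolute value `≤ √q_v`. For `ρ' > ρ > 1` let

`S_{ρ,ρ'}(Y) = - ∑ w_{1/ρ}(k log q_v / log Y) (α_v^k + β_v^k) / (k q_v^k)`,

the FINITE sum over the pairs `(v, k)`, `k ≥ 1`, with `q_v^k ≤ exp((log Y)^ρ')`, where
`1 - c_v X + e_v X² = (1 - α_v X) (1 - β_v X)` and `w_α` is the smooth Mittag-Leffler weight
`w_α(u) = (2π)⁻¹ ∫ Re (exp(z - u z^α) / z) dt`, `z = 1 + i t`, `w_α(0) = 1`.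

The ONLY hypothesis is that `L(E, s)` continues REAL-analytically, i. e. to a holomorphic function `F` on a neighbourhood
of the real interval `(1, 3/2]`. For general `K` nothing is known on a continuation to non-real points with
`1 < Re s < 3/2`. For `θ ≥ 0` let `H(ρ, θ)` be the domain

`{s : |arg (s - 1)| < π / (2ρ), Re (s - 1)^ρ > θ}`,

the interior of a curve of hyperbolic type with the asymptotes `arg (s - 1) = ± π / (2ρ)` (a sector for `θ = 0`; the
interior of a branch of a hyperbola for `ρ = 2`). It is shown that the possible continuations without zeros are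
determined by the exponents of growth of the finite sums:

1. For all `ρ' > ρ > 1` and `θ ≥ 0` the following are equivalent.
   * `L(E, s)` has a holomorphic continuation without zeros to the union of `H(ρ, θ)` and `{Re s > 3/2}`;
   * for all `ε > 0`: `S_{ρ,ρ'}(Y) ≤ exp ((θ + ε) (log Y)^ρ)` for all large `Y` (a ONE-SIDED bound);
   * for all `ε > 0`: `|S_{ρ,ρ'}(Y)| ≤ exp ((θ + ε) (log Y)^ρ)` for all large `Y`.
2. (half planes) For all `κ ≥ 0`: `L(E, s)` has a holomorphic continuation without zeros to the half plane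
   `Re s > 1 + κ` if and only if for all `ρ > 1`, `ε > 0`: `S_{ρ,ρ'}(Y) ≤ exp ((κ^ρ + ε) (log Y)^ρ)` for all large `Y`
   (`ρ' = t(ρ) > ρ` any function of `ρ`).

So the limes superior of `log (max (S_{ρ,ρ'}(Y), e)) / (log Y)^ρ` is the smallest `θ` such that the `L`-series
continues without zeros to `H(ρ, θ)`, and an upper bound for finite sums of point counts yields an analytic
continuation into the complex domain. By 1 there is no intermediate behaviour: if `L(E, s)` has no such continuation,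
then `S_{ρ,ρ'}(Y)` takes POSITIVE values `> exp ((θ + ε) (log Y)^ρ)` for arbitrarily large `Y`, for some `ε > 0`.

Proof. With `Y = exp(y^{1/ρ})` the sum is, up to `o(1)`, a function `f(y)` whose Laplace transform is
`- (d/dv) (g(v)/v)`, `g(v) = - log L(1 + v^{1/ρ})` for large `Re v`. By Landau's theorem an upper bound for `f` first
excludes real zeros and then all the singularities in `Re v > θ`. Conversely the integral for `f(y)` can be moved to
`Re v = θ + ε`, because `Re v^{1/ρ} → ∞` for `|v| → ∞` on this line, so that `g` is bounded there. The domains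
`H(ρ, κ^ρ)` exhaust the half plane `Re (s - 1) > κ` for `ρ → 1`, and the continuations agree, since every point of
`H(ρ, θ)` is joined to the half plane of convergence by a ray from `1`. New: `Pool.Agent.X287.Level`, `Level2`,
`Level3`, `RSect`; the asymptotic theory of the weights is in `Pool.Agent.TH942.SL`.
-/

set_option autoImplicit false

open IsDedekindDomain NumberField Filter Topology

namespace Pool.Agent.Results.MP_0d9be2_nt.GrowthExponents

variable {K : Type} [Field K] [NumberField K]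

/-- The prime `v` does not divide `6 (4 a³ + 27 b²)`. -/
def Good (a b : 𝓞 K) (v : HeightOneSpectrum (𝓞 K)) : Prop :=
  6 * (4 * a ^ 3 + 27 * b ^ 2) ∉ v.asIdeal

/-- `q_v`, the number of elements of the residue field. -/
noncomputable def q (v : HeightOneSpectrum (𝓞 K)) : ℕ := Ideal.absNorm v.asIdeal

/-- `N_v`, the number of affine points of `y² = x³ + a x + b` modulo `v`. -/
noncomputable def points (a b : 𝓞 K) (v : HeightOneSpectrum (𝓞 K)) : ℕ :=
  Nat.card {P : (𝓞 K ⧸ v.asIdeal) × (𝓞 K ⧸ v.asIdeal) //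
    P.2 ^ 2 = P.1 ^ 3 + Ideal.Quotient.mk v.asIdeal a * P.1 + Ideal.Quotient.mk v.asIdeal b}

/-- The coefficients of the local polynomials `1 - c_v X + e_v X²`: `c_v = q_v - N_v`, `e_v = q_v` for
`v ∤ 6 (4 a³ + 27 b²)`; for the other `v` the reciprocal roots have absolute value at most `√q_v`. -/
def IsLocalData (a b : 𝓞 K) (c e : HeightOneSpectrum (𝓞 K) → ℤ) : Prop :=
  (∀ v, Good a b v → c v = (q v : ℤ) - points a b v ∧ e v = q v) ∧
  ∀ v, ¬Good a b v → ∀ z : ℂ, z ^ 2 - c v * z + e v = 0 → ‖z‖ ≤ √(q v : ℝ)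

/-- The power sums `α ^ n + β ^ n`, where `1 - c X + e X² = (1 - α X) (1 - β X)`, by the recursion. -/
def powerSum (c e : ℤ) : ℕ → ℤ
  | 0 => 2
  | 1 => c
  | n + 2 => c * powerSum c e (n + 1) - e * powerSum c e n

/-- The Mittag-Leffler weight `w_α(u) = (2π)⁻¹ ∫ Re (exp (z - u z^α) / z) dt`, `z = 1 + it`. -/
noncomputable def weight (α u : ℝ) : ℝ :=
  (2 * Real.pi)⁻¹ * ∫ t : ℝ, (Complex.exp ((1 + t * Complex.I) -
    u * (1 + t * Complex.I) ^ (α : ℂ)) / (1 + t * Complex.I)).re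

/-- The pairs `(v, k)`, `k = x.2 + 1`, with `q_v ^ k ≤ exp((log Y)^ρ')`. -/
def pairs (K : Type) [Field K] [NumberField K] (ρ' Y : ℝ) : Set (HeightOneSpectrum (𝓞 K) × ℕ) :=
  {x | (q x.1 : ℝ) ^ (x.2 + 1) ≤ Real.exp (Real.log Y ^ ρ')}

/-- `S_{ρ,ρ'}(Y)`: minus the sum over the finite set `pairs`, with `k = x.2 + 1`. -/
noncomputable def S (c e : HeightOneSpectrum (𝓞 K) → ℤ) (ρ ρ' Y : ℝ) : ℝ :=
  -∑ᶠ x ∈ pairs K ρ' Y, weight ρ⁻¹ (((x.2 : ℝ) + 1) * Real.log (q x.1) / Real.log Y) *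
    (powerSum (c x.1) (e x.1) (x.2 + 1) / (((x.2 : ℝ) + 1) * (q x.1 : ℝ) ^ (x.2 + 1)))

/-- `G` is the `L`-series for `Re s > 3/2`. -/
def IsLSeries (c e : HeightOneSpectrum (𝓞 K) → ℤ) (G : ℂ → ℂ) : Prop :=
  ∀ s : ℂ, 3 / 2 < s.re → HasProd (fun v : HeightOneSpectrum (𝓞 K) =>
    (1 - c v * (q v : ℂ) ^ (-s) + e v * ((q v : ℂ) ^ (-s)) ^ 2)⁻¹) (G s)

/-- `s` lies in `H(ρ, θ)`: `|arg (s - 1)| < π / (2ρ)`, `s ≠ 1`, and `Re (s - 1)^ρ > θ`. -/
def InH (ρ θ : ℝ) (s : ℂ) : Prop :=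
  s ≠ 1 ∧ |Complex.arg (s - 1)| < Real.pi / (2 * ρ) ∧ θ < ((s - 1) ^ (ρ : ℂ)).re

/-- The `L`-series has a holomorphic continuation without zeros to the union of the set `{s | P s}` and the
half plane `Re s > 3/2`. -/
def ZeroFree (c e : HeightOneSpectrum (𝓞 K) → ℤ) (P : ℂ → Prop) : Prop := ∃ G : ℂ → ℂ,
  IsLSeries c e G ∧ ∀ s : ℂ, P s ∨ 3 / 2 < s.re → DifferentiableAt ℂ G s ∧ G s ≠ 0

/-! ### Translation -/

theorem ps_eq (c e : ℤ) (n : ℕ) : Pool.Agent.X287.Kit.ps c e n = powerSum c e n := by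
  induction n using Nat.twoStepInduction with
  | zero => simp [Pool.Agent.X287.Kit.ps, powerSum]
  | one => simp [Pool.Agent.X287.Kit.ps, powerSum]
  | more n ih1 ih2 =>
    simp only [Pool.Agent.X287.Kit.ps, powerSum]
    rw [ih1, ih2]
    push_cast
    ring

theorem S_eq (c e : HeightOneSpectrum (𝓞 K) → ℤ) (ρ ρ' Y : ℝ) : S c e ρ ρ' Y =
    -Pool.Agent.TH942.ES.StE (fun v : HeightOneSpectrum (𝓞 K) => q v)
      (Pool.Agent.X287.Kit.al (fun v : HeightOneSpectrum (𝓞 K) => q v)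
        (Pool.Agent.X287.Kit.rts c e) 1) ρ ρ' Y := by
  unfold S Pool.Agent.TH942.ES.StE
  congr 1
  refine finsum_congr fun x => ?_
  refine finsum_congr_Prop rfl fun _ => ?_
  have e1 : weight = Pool.Agent.TH942.SL.wml := rfl
  rw [e1]
  congr 1
  have h := Pool.Agent.X287.Kit.full_cP (c := c) (e := e) (c₀ := 1) x
  refine Eq.trans ?_ h.symm
  rw [ps_eq, mul_one]
  congr 2
  rw [← Real.rpow_natCast]
  push_cast
  rfl

open Pool.Agent.X287.Kit in
/-- **Growth exponents of finite sums and continuation of the `L`-series.** -/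
theorem result (K : Type) [Field K] [NumberField K] (a b : 𝓞 K)
    (c e : HeightOneSpectrum (𝓞 K) → ℤ) (hce : IsLocalData a b c e)
    (F : ℂ → ℂ) (hF : IsLSeries c e F)
    (hr : ∀ x : ℝ, 1 < x → x ≤ 3 / 2 → AnalyticAt ℂ F (x : ℂ)) :
    (∀ ρ' Y : ℝ, (pairs K ρ' Y).Finite) ∧
    -- 1. the domains `H(ρ, θ)`
    (∀ ρ ρ' θ : ℝ, 1 < ρ → ρ < ρ' → 0 ≤ θ →
      (ZeroFree c e (InH ρ θ) ↔ ∀ ε : ℝ, 0 < ε → ∀ᶠ Y : ℝ in atTop,
        S c e ρ ρ' Y ≤ Real.exp ((θ + ε) * Real.log Y ^ ρ)) ∧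
      (ZeroFree c e (InH ρ θ) ↔ ∀ ε : ℝ, 0 < ε → ∀ᶠ Y : ℝ in atTop,
        |S c e ρ ρ' Y| ≤ Real.exp ((θ + ε) * Real.log Y ^ ρ))) ∧
    -- 2. half planes
    ∀ κ : ℝ, 0 ≤ κ → ∀ t : ℝ → ℝ, (∀ ρ, ρ < t ρ) →
      (ZeroFree c e (fun s => 1 + κ < s.re) ↔ ∀ ρ : ℝ, 1 < ρ → ∀ ε : ℝ, 0 < ε → ∀ᶠ Y : ℝ in atTop,
        S c e ρ (t ρ) Y ≤ Real.exp ((κ ^ ρ + ε) * Real.log Y ^ ρ)) := by
  have hloc : Local a b c e := ⟨fun v hv => by
    obtain ⟨h1, h2⟩ := hce.1 v hv
    constructor
    · rw [h1]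
      push_cast
      rfl
    · rw [h2]
      push_cast
      rfl, hce.2⟩
  have E := full_sys hloc le_rfl
  have hreal := full_real (K := K) (c := c) (e := e) (c₀ := 1)
  have hc : (1 : ℂ) = ((1 : ℝ) : ℂ) := by norm_num
  have ha : (3 / 2 : ℝ) = 1 + 1 / 2 := by norm_num
  have hl := full_loc (K := K) (c := c) (e := e) hc
  have H := rcon_open E hl hc ha hF hr
  refine ⟨fun ρ' Y => E.finS _, fun ρ ρ' θ h1 h2 h3 => ?_, fun κ hκ t ht => ?_⟩
  · have h4 := zh_iff E hl hc ha ρ θ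
    obtain ⟨h5, h6⟩ := Pool.Agent.X287.RS.level_iff E hreal H h1 h2 h3
    rw [← h4] at h5 h6
    simp only [S_eq, abs_neg]
    exact ⟨h5, h6⟩
  · have h4 := zp_iff E hl hc ha κ
    have h5 := Pool.Agent.X287.RS.half_iff E hreal H hκ ht
    rw [← h4] at h5
    simp only [S_eq]
    exact h5

end Pool.Agent.Results.MP_0d9be2_nt.GrowthExponents
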