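import Pool.Agent.X288.CX.SymQ3

/-!
# The orders of the symmetric powers of an elliptic curve at the edge

Let `E` be an elliptic curve over any number field `K`; nothing like modularity or potential modularity
is assumed (it is not known if `K` is not a totally real or a CM field).  We consider `L(E, s)` and the
`L`-functions of the symmetric powers `L(Sym^n E, s)` near the real points `n/2 + 1` of the edges of their
half planes of absolute convergence.

Without any assumption on the continuation the growth of the `L(Sym^n E, n/2 + 1 + ε)` for `ε → 0+`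
satisfies the positivity of all the Toeplitz forms (part 2).

If `L(E, s)` and the `L(Sym^n E, s)` have meromorphic continuations to a neighbourhood of this one point,
with poles of order `m_n` (zeros of order `-m_n`), then the integers `m_n` and the distribution of the
Frobenius angles are almost determined (part 3): the normalised traces of Frobenius `λ_v` have a limit law
(in the sense of Dirichlet density), and, with `c_n = m_n - m_{n-2}`, there are three possibilities:

* the law has the density `(1 + ε cos Nθ)/π`, `ε ∈ {0, 1, -1}`, for the angle, and `c_n = 0` for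
  `n ≠ 0, N`, `c_N = ε`; the law of Sato and Tate is the case `N = 2`, `ε = -1`;
* the law is the sum of one half of the uniform law and of one half of the uniform law on the `d` angles
  with `exp(idθ) = ε`, and `c_n = ε^{n/d}` for `d ∣ n`, and `0` for the other `n ≥ 1` (curves with complex
  multiplication by a field not contained in `K`: `d = 2`, `ε = -1`);
* the normalised eigenvalues of Frobenius accumulate, outside a set of density zero, at the roots of unity
  with `ζ^M = ε`, and the `c_n` are periodic up to the sign.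

In particular, if `L(Sym² E, s)` and `L(Sym⁴ E, s)` are holomorphic at their points (`m_2 ≤ 0`,
`m_4 ≤ 0`), then only two possibilities remain: all `m_n`, `n ≥ 1`, are zero and the law of Sato and Tate
holds, or the third case.

The proof uses a theorem of the type of the theorem of Helson on measures whose Fourier coefficients have
finitely many values, here for positive definite sequences of half integers.
-/

set_option autoImplicit false

namespace Pool.Agent.Results.MP_0d9be2_nt.SymmetricPowerOrders

open Complex Filter Topology ComplexConjugate NumberField IsDedekindDomain Polynomial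

/-- The finite primes of `K`, as prime ideals of its ring of integers. -/
abbrev Primes (K : Type) [Field K] [NumberField K] : Type := HeightOneSpectrum (𝓞 K)

/-- `q_v`, the number of elements of the residue field. -/
noncomputable def nrm {K : Type} [Field K] [NumberField K] (v : Primes K) : ℕ :=
  Ideal.absNorm v.asIdeal

/-- The Frobenius eigenvalues `frob v 0`, `frob v 1` of a pure motive of rank two over `K` whose
determinant is the power of the cyclotomic character, at almost all primes.  An elliptic curve `E` over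
`K` gives such data with `weight = 1`: the `frob v j` are the zeros of `X² - a_v X + q_v`, and by the
theorem of Hasse they have the absolute value `q_v^{1/2}`. -/
structure RankTwo (K : Type) [Field K] [NumberField K] where
  weight : ℤ
  frob : Primes K → Fin 2 → ℂ
  pure : ∀ᶠ v in cofinite, ∀ j, ‖frob v j‖ = (nrm v : ℝ) ^ ((weight : ℝ) / 2)
  det : ∀ᶠ v in cofinite, frob v 0 * frob v 1 = (nrm v : ℂ) ^ weight

/-- The polynomials `B_v` are the Euler factors of the symmetric power `Sym^n` at almost all primes. -/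
def IsSymPower {K : Type} [Field K] [NumberField K] (E : RankTwo K) (n : ℕ)
    (B : Primes K → ℂ[X]) : Prop :=
  ∀ᶠ v in cofinite, ∀ z : ℂ,
    (B v).eval z = ∏ j : Fin (n + 1), (1 - E.frob v 0 ^ (n - j.val) * E.frob v 1 ^ j.val * z)

/-- The Euler product `∏_v B_v(q_v^{-s})⁻¹`. -/
noncomputable def eulerProduct {K : Type} [Field K] [NumberField K] (B : Primes K → ℂ[X])
    (s : ℂ) : ℂ :=
  ∏' v : Primes K, ((B v).eval ((nrm v : ℂ) ^ (-s)))⁻¹

/-- The real point of the edge for `Sym^n`: `n w / 2 + 1`, `w` the weight. -/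
noncomputable def edge {K : Type} [Field K] [NumberField K] (E : RankTwo K) (n : ℕ) : ℂ :=
  (n : ℂ) * (E.weight : ℂ) / 2 + 1

/-- `log |L(Sym^n E, edge + ε)| / log (1/ε)` for `n ≥ 1`, and `1` for `n = 0`. -/
noncomputable def growth {K : Type} [Field K] [NumberField K] (E : RankTwo K)
    (B : ℕ → Primes K → ℂ[X]) (ε : ℝ) (n : ℕ) : ℝ :=
  if n = 0 then 1 else Real.log ‖eulerProduct (B n) (edge E n + ε)‖ / Real.log (1 / ε)

/-- The differences `c_0 = 2`, `c_1 = x_1`, `c_n = x_n - x_{n-2}`. -/
def diff {R : Type} [CommRing R] (x : ℕ → R) : ℕ → R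
  | 0 => 2
  | 1 => x 1
  | (n + 2) => x (n + 2) - x n

/-- The normalised trace of Frobenius (a real number in `[-2, 2]` at almost all primes). -/
noncomputable def RankTwo.trace {K : Type} [Field K] [NumberField K] (E : RankTwo K)
    (v : Primes K) : ℝ :=
  ((E.frob v 0 + E.frob v 1) * (nrm v : ℂ) ^ (-((E.weight : ℂ) / 2))).re

/-- The normalised eigenvalues of Frobenius. -/
noncomputable def RankTwo.unit {K : Type} [Field K] [NumberField K] (E : RankTwo K)
    (v : Primes K) (j : Fin 2) : ℂ :=
  E.frob v j * (nrm v : ℂ) ^ (-((E.weight : ℂ) / 2))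

/-- The mean of `φ` over the primes: `(∑_v φ(v) q_v^{-1-ε}) / (∑_v q_v^{-1-ε})`. -/
noncomputable def mean {K : Type} [Field K] [NumberField K] (φ : Primes K → ℝ) (ε : ℝ) : ℝ :=
  (∑' v, φ v * (nrm v : ℝ) ^ (-(1 + ε))) / ∑' v : Primes K, (nrm v : ℝ) ^ (-(1 + ε))

/-- The set `A` has Dirichlet density zero. -/
def DensityZero {K : Type} [Field K] [NumberField K] (A : Set (Primes K)) : Prop :=
  Tendsto (mean (A.indicator fun _ => (1 : ℝ))) (𝓝[>] 0) (𝓝 0)

/-- The normalised traces of Frobenius have the limit law `Λ`: for all continuous functions `φ` the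
means of the `φ(λ_v)` tend to `Λ φ`. -/
def HasLaw {K : Type} [Field K] [NumberField K] (E : RankTwo K) (Λ : (ℝ → ℝ) → ℝ) : Prop :=
  ∀ φ : ℝ → ℝ, Continuous φ → Tendsto (mean fun v => φ (E.trace v)) (𝓝[>] 0) (𝓝 (Λ φ))

/-- The law of `2 cos θ` for the density `(1 + ε cos Nθ)/π` on `[0, π]`. -/
noncomputable def cosineLaw (ε : ℝ) (N : ℕ) (φ : ℝ → ℝ) : ℝ :=
  (1 / Real.pi) * ∫ θ in (0 : ℝ)..Real.pi, φ (2 * Real.cos θ) * (1 + ε * Real.cos (N * θ))

/-- The law of Sato and Tate. -/
noncomputable def satoTateLaw (φ : ℝ → ℝ) : ℝ :=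
  (2 / Real.pi) * ∫ θ in (0 : ℝ)..Real.pi, φ (2 * Real.cos θ) * Real.sin θ ^ 2

/-- One half of the uniform law for the angle and one half of the mean over the `d` angles
`(ψ + 2πk)/d`. -/
noncomputable def halfLaw (ψ : ℝ) (d : ℕ) (φ : ℝ → ℝ) : ℝ :=
  (1 / 2) * ((1 / Real.pi) * ∫ θ in (0 : ℝ)..Real.pi, φ (2 * Real.cos θ)) +
    (1 / 2) * ((1 / d) * ∑ k ∈ Finset.range d, φ (2 * Real.cos ((ψ + 2 * Real.pi * k) / d)))

/-- The first possibility. -/
def Cosine {K : Type} [Field K] [NumberField K] (E : RankTwo K) (c : ℕ → ℤ) : Prop :=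
  ∃ (N : ℕ) (ε : ℤ), 1 ≤ N ∧ (ε = 0 ∨ ε = 1 ∨ ε = -1) ∧
    (∀ n, 1 ≤ n → c n = if n = N then ε else 0) ∧ HasLaw E (cosineLaw ε N)

/-- The second possibility. -/
def Half {K : Type} [Field K] [NumberField K] (E : RankTwo K) (c : ℕ → ℤ) : Prop :=
  ∃ (d : ℕ) (ε : ℤ) (ψ : ℝ), 1 ≤ d ∧ (ε = 1 ∧ ψ = 0 ∨ ε = -1 ∧ ψ = Real.pi) ∧
    (∀ n, 1 ≤ n → c n = if d ∣ n then ε ^ (n / d) else 0) ∧ HasLaw E (halfLaw ψ d)

/-- The third possibility. -/
def Cyclotomic {K : Type} [Field K] [NumberField K] (E : RankTwo K) (c : ℕ → ℤ) : Prop :=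
  ∃ (M : ℕ) (ε : ℤ), 1 ≤ M ∧ (ε = 1 ∨ ε = -1) ∧ (∀ n, c (n + M) = ε * c n) ∧
    ∀ (j : Fin 2) (η : ℝ), 0 < η → DensityZero {v | η ≤ ‖E.unit v j ^ M - ε‖}

/-- **The orders of the symmetric powers of an elliptic curve at the edge.**

Let `K` be a number field and `E` an elliptic curve over `K`, or any `RankTwo` over `K`, and `B n` any
choice of Euler factors of the `L(Sym^n E, s)`, `n ≥ 1`, which may be arbitrary (but not zero at
`q_v^{-edge}`) at finitely many primes.

1. `L(Sym^n E, edge + ε) ≠ 0` for small `ε > 0`.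
2. (No continuation is assumed.)  With `x_n(ε) = log |L(Sym^n E, edge + ε)| / log (1/ε)`, `x_0 = 1` and
`c_n = x_n - x_{n-2}` (`c_0 = 2`, `c_1 = x_1`): for all `k`, `C`, `η > 0` and all sufficiently small
`ε > 0` we have `∑_{i,j ≤ k} t_i t_j c_{|i-j|}(ε) ≥ -η` for all real `t_i` of absolute value at most `C`.
3. If all the `L(Sym^n E, s)`, `n ≥ 1`, have meromorphic continuations to neighbourhoods of the points
`edge`, then there are integers `m_n`, `m_0 = 1`, such that `-m_n` is the order at the point `edge`, and
with `c_n = m_n - m_{n-2}` (`c_1 = m_1`) one of the three possibilities `Cosine`, `Half` and `Cyclotomic`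
holds.  If `m_2 ≤ 0` and `m_4 ≤ 0`, then `Cyclotomic` holds, or `m_n = 0` for all `n ≥ 1` and the
normalised traces of Frobenius have the law of Sato and Tate. -/
theorem result (K : Type) [Field K] [NumberField K] (E : RankTwo K) (B : ℕ → Primes K → ℂ[X])
    (hB : ∀ n, 1 ≤ n → IsSymPower E n (B n))
    (hB0 : ∀ n, 1 ≤ n → ∀ v, (B n v).eval ((nrm v : ℂ) ^ (-(edge E n))) ≠ 0) :
    (∀ n, 1 ≤ n → ∀ᶠ ε : ℝ in 𝓝[>] 0, eulerProduct (B n) (edge E n + ε) ≠ 0) ∧
    (∀ (k : ℕ) (C η : ℝ), 0 < η → ∀ᶠ ε : ℝ in 𝓝[>] 0, ∀ t : ℕ → ℝ,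
      (∀ i ∈ Finset.range (k + 1), |t i| ≤ C) →
      -η ≤ ∑ i ∈ Finset.range (k + 1), ∑ j ∈ Finset.range (k + 1),
        t i * t j * diff (growth E B ε) ((i : ℤ) - j).natAbs) ∧
    ∀ Λ : ℕ → ℂ → ℂ, (∀ n, 1 ≤ n → MeromorphicAt (Λ n) (edge E n) ∧
      ∀ᶠ s in 𝓝 (edge E n), (edge E n).re < s.re → Λ n s = eulerProduct (B n) s) →
      ∃ m : ℕ → ℤ, m 0 = 1 ∧
        (∀ n, 1 ≤ n → meromorphicOrderAt (Λ n) (edge E n) = ((-(m n) : ℤ) : WithTop ℤ)) ∧
        (Cosine E (diff m) ∨ Half E (diff m) ∨ Cyclotomic E (diff m)) ∧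
        (m 2 ≤ 0 → m 4 ≤ 0 → Cyclotomic E (diff m) ∨
          (∀ n, 1 ≤ n → m n = 0) ∧ HasLaw E satoTateLaw) := by
  classical
  -- the data
  have hgood : ∀ᶠ v in cofinite, X288.CX.good E.weight E.frob v := by
    filter_upwards [E.pure, E.det] with v h1 h2
    exact ⟨h1, h2⟩
  set β : Primes K → ℂ := X288.CX.be E.weight E.frob with hβ
  have hβn : ∀ v, ‖β v‖ = 1 := X288.CX.norm_be E.weight E.frob
  have hedge : ∀ n : ℕ, edge E n = (((n : ℝ) * ((E.weight : ℝ) / 2) : ℝ) : ℂ) + 1 := by
    intro n
    unfold edge
    push_cast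
    ring
  have hcast : ∀ v : Primes K, (((E.weight : ℂ) / 2)) = ((((E.weight : ℝ) / 2 : ℝ)) : ℂ) := by
    intro v
    push_cast
    ring
  have hsize : ∀ n, 1 ≤ n →
      (∀ᶠ ε : ℝ in 𝓝[>] 0, eulerProduct (B n) (edge E n + ε) ≠ 0) ∧
      Tendsto (fun ε : ℝ => X288.CX.mn (X288.CX.usym β n) ε -
        Real.log ‖eulerProduct (B n) (edge E n + ε)‖ / Real.log (1 / ε)) (𝓝[>] 0) (𝓝 0) :=
    fun n hn => X288.CX.sym_size E.weight E.frob hgood n (B n) (hB n hn) (hedge n) (hB0 n hn)
  have hmean : ∀ (φ : Primes K → ℝ) (ε : ℝ), mean φ ε = X288.CX.mn φ ε := by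
    intro φ ε
    unfold mean X288.CX.mn W540.BE.EP
    congr 1
    exact tsum_congr fun v => (one_mul _).symm
  have hmean' : ∀ φ : Primes K → ℝ, mean φ = X288.CX.mn φ := fun φ => funext fun ε => hmean φ ε
  have hone : ∀ᶠ ε : ℝ in 𝓝[>] 0, X288.CX.mn (F := K) (fun _ => 1) ε = 1 :=
    X288.CX.mn_const (F := K) 1
  -- the growths and the means
  have hgr : ∀ n, Tendsto (fun ε : ℝ => X288.CX.mn (X288.CX.usym β n) ε - growth E B ε n)
      (𝓝[>] 0) (𝓝 0) := by
    intro n
    unfold growth
    by_cases hn : n = 0
    · subst hn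
      simp only [if_true]
      refine tendsto_const_nhds.congr' ?_
      filter_upwards [hone] with ε h1
      have e : X288.CX.usym β 0 = fun _ => 1 := by
        funext v
        unfold X288.CX.usym
        simp [X288.CX.hh]
      rw [e, h1, sub_self]
    · simp only [if_neg hn]
      exact (hsize n (Nat.one_le_iff_ne_zero.2 hn)).2
  have hyd : ∀ n : ℕ, Tendsto (fun ε : ℝ => 2 * X288.CX.mn (fun v => (β v ^ (n : ℤ)).re) ε -
      diff (growth E B ε) n) (𝓝[>] 0) (𝓝 0) := by
    intro n
    have h1 : ∀ᶠ ε : ℝ in 𝓝[>] 0, 2 * X288.CX.mn (fun v => (β v ^ (n : ℤ)).re) ε =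
        X288.CX.yd (fun k => X288.CX.mn (X288.CX.usym β k) ε) n := by
      filter_upwards [self_mem_nhdsWithin, hone] with ε h2 h3
      exact X288.CX.mn_re β hβn n h2 h3
    match n with
    | 0 =>
      refine tendsto_const_nhds.congr' ?_
      filter_upwards [h1] with ε h2
      rw [h2]
      simp [X288.CX.yd, diff]
    | 1 =>
      refine (hgr 1).congr' ?_
      filter_upwards [h1] with ε h2
      rw [h2]
      rfl
    | (n + 2) =>
      have h3 := (hgr (n + 2)).sub (hgr n)
      rw [sub_zero] at h3
      refine h3.congr' ?_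
      filter_upwards [h1] with ε h2
      rw [h2]
      simp only [X288.CX.yd, diff]
      ring
  refine ⟨fun n hn => (hsize n hn).1, fun k C η hη => ?_, fun Λ hΛ => ?_⟩
  · -- the Toeplitz forms
    set δ : ℝ := η / ((k + 1 : ℕ) * (k + 1 : ℕ) * C ^ 2 + 1) with hδ
    have hδ0 : 0 < δ := by positivity
    have hδ1 : ((k + 1 : ℕ) : ℝ) * (k + 1 : ℕ) * (C ^ 2 * δ) ≤ η := by
      have : δ * (((k + 1 : ℕ) : ℝ) * (k + 1 : ℕ) * C ^ 2 + 1) = η :=
        div_mul_cancel₀ _ (by positivity)
      nlinarith
    have k1 : ∀ᶠ ε : ℝ in 𝓝[>] 0, ∀ n ∈ Finset.range (k + 1),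
        |2 * X288.CX.mn (fun v => (β v ^ (n : ℤ)).re) ε - diff (growth E B ε) n| ≤ δ := by
      rw [Filter.eventually_all_finset]
      intro n _
      exact ((Metric.tendsto_nhds.1 (hyd n)) δ hδ0).mono fun ε hε => by
        rw [Real.dist_eq, sub_zero] at hε
        exact hε.le
    filter_upwards [k1, self_mem_nhdsWithin] with ε h1 h2 t ht
    have hε : (0 : ℝ) < ε := h2
    -- the form of the means is nonnegative
    have h3 := X288.CX.toeplitz β hβn ((Finset.range (k + 1)).map
      ⟨fun n : ℕ => (n : ℤ), Nat.cast_injective⟩) (fun i => t i.toNat) hε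
    rw [Finset.sum_map] at h3
    simp only [Finset.sum_map, Function.Embedding.coeFn_mk, Int.toNat_natCast] at h3
    have habs : ∀ i j : ℕ, X288.CX.mn (fun v => (β v ^ ((i : ℤ) - j)).re) ε =
        X288.CX.mn (fun v => (β v ^ (((((i : ℤ) - j).natAbs : ℕ)) : ℤ)).re) ε := by
      intro i j
      rcases Int.natAbs_eq ((i : ℤ) - j) with h | h
      · conv_lhs => rw [h]
      · conv_lhs => rw [h]
        exact X288.CX.mn_re_neg β _ ε hβn
    have hform : |∑ i ∈ Finset.range (k + 1), ∑ j ∈ Finset.range (k + 1), t i * t j *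
        (2 * X288.CX.mn (fun v => (β v ^ (((((i : ℤ) - j).natAbs : ℕ)) : ℤ)).re) ε -
          diff (growth E B ε) ((i : ℤ) - j).natAbs)| ≤ η := by
      have h4 := X288.CX.form_leF (Finset.range (k + 1)) (a := t) ht
        (g := fun i j => 2 * X288.CX.mn (fun v =>
          (β v ^ (((((i : ℤ) - j).natAbs : ℕ)) : ℤ)).re) ε -
          diff (growth E B ε) ((i : ℤ) - j).natAbs) (δ := δ) (fun i hi j hj => by
          refine h1 _ ?_
          rw [Finset.mem_range] at hi hj ⊢
          omega)
      rw [Finset.card_range] at h4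
      exact h4.trans hδ1
    have e1 : ∑ i ∈ Finset.range (k + 1), ∑ j ∈ Finset.range (k + 1), t i * t j *
        (2 * X288.CX.mn (fun v => (β v ^ (((((i : ℤ) - j).natAbs : ℕ)) : ℤ)).re) ε -
          diff (growth E B ε) ((i : ℤ) - j).natAbs) =
        2 * (∑ i ∈ Finset.range (k + 1), ∑ j ∈ Finset.range (k + 1), t i * t j *
          X288.CX.mn (fun v => (β v ^ ((i : ℤ) - j)).re) ε) -
        ∑ i ∈ Finset.range (k + 1), ∑ j ∈ Finset.range (k + 1), t i * t j *
          diff (growth E B ε) ((i : ℤ) - j).natAbs := by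
      rw [Finset.mul_sum, ← Finset.sum_sub_distrib]
      refine Finset.sum_congr rfl fun i _ => ?_
      rw [Finset.mul_sum, ← Finset.sum_sub_distrib]
      refine Finset.sum_congr rfl fun j _ => ?_
      rw [habs i j]
      ring
    rw [e1] at hform
    have h5 := (abs_le.1 hform).2
    linarith
  · -- the orders
    have hord : ∀ n, ∃ m : ℤ, (1 ≤ n → meromorphicOrderAt (Λ n) (edge E n) = m) ∧
        (n = 0 → m = -1) ∧
        Tendsto (fun ε => growth E B ε n) (𝓝[>] 0) (𝓝 (-(m : ℝ))) := by
      intro n
      by_cases hn : n = 0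
      · refine ⟨-1, fun h => absurd hn (by omega), fun _ => rfl, ?_⟩
        unfold growth
        simp only [if_pos hn]
        rw [show -(((-1 : ℤ)) : ℝ) = 1 by norm_num]
        exact tendsto_const_nhds
      · have hn1 : 1 ≤ n := Nat.one_le_iff_ne_zero.2 hn
        obtain ⟨m, h1, h2⟩ := X288.CX.order_exists (L := eulerProduct (B n)) (hΛ n hn1).1
          (hΛ n hn1).2 (hsize n hn1).1
        refine ⟨m, fun _ => h1, fun h => absurd h hn, ?_⟩
        unfold growth
        simp only [if_neg hn]
        exact h2
    choose m' hm1 hm2 hm3 using hord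
    set m : ℕ → ℤ := fun n => -m' n with hm
    have hm0 : m 0 = 1 := by
      rw [hm]
      simp only
      rw [hm2 0 rfl]
      norm_num
    have hlimg : ∀ n, Tendsto (fun ε => growth E B ε n) (𝓝[>] 0) (𝓝 (m n : ℝ)) := by
      intro n
      have := hm3 n
      rw [hm]
      push_cast
      exact this
    have hdiff : ∀ n, Tendsto (fun ε => diff (growth E B ε) n) (𝓝[>] 0)
        (𝓝 ((diff m n : ℤ) : ℝ)) := by
      intro n
      match n with
      | 0 =>
        simp only [diff]
        push_cast
        exact tendsto_const_nhds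
      | 1 =>
        simp only [diff]
        exact hlimg 1
      | (n + 2) =>
        simp only [diff]
        push_cast
        exact (hlimg (n + 2)).sub (hlimg n)
    -- the sequence on the integers
    set a : ℤ → ℝ := fun n => ((diff m n.natAbs : ℤ) : ℝ) / 2 with ha
    have hlim : ∀ n : ℤ, Tendsto (X288.CX.mn fun v => (β v ^ n).re) (𝓝[>] 0) (𝓝 (a n)) := by
      intro n
      have h1 : Tendsto (X288.CX.mn fun v => (β v ^ ((n.natAbs : ℕ) : ℤ)).re) (𝓝[>] 0)
          (𝓝 (a n)) := by
        have h2 := ((hyd n.natAbs).add (hdiff n.natAbs)).div_const 2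
        rw [zero_add] at h2
        refine h2.congr fun ε => ?_
        ring
      rcases Int.natAbs_eq n with h | h
      · rw [← h] at h1
        exact h1
      · have h2 : (X288.CX.mn fun v => (β v ^ n).re) =
            X288.CX.mn fun v => (β v ^ ((n.natAbs : ℕ) : ℤ)).re := by
          funext ε
          conv_lhs => rw [h]
          exact X288.CX.mn_re_neg β _ ε hβn
        rw [h2]
        exact h1
    have hpd : X288.CX.PD a := X288.CX.pd_of_lim β hβn a hlim
    have hint : ∀ n, ∃ z : ℤ, 2 * a n = z := fun n => ⟨diff m n.natAbs, by rw [ha]; ring⟩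
    have hac : ∀ n : ℕ, a n = ((diff m n : ℤ) : ℝ) / 2 := by
      intro n
      rw [ha]
      simp
    -- the traces
    have htrace : ∀ᶠ v in cofinite, E.trace v = 2 * (β v).re := by
      filter_upwards [hgood] with v hv
      unfold RankTwo.trace
      rw [add_mul, hcast v]
      have h1 := X288.CX.be_conj E.weight E.frob hv
      have h2 : E.frob v 0 * (nrm v : ℂ) ^ (-((((E.weight : ℝ) / 2 : ℝ)) : ℂ)) = β v := by
        rw [hβ]
        unfold X288.CX.be
        rw [if_pos hv]
        rfl
      have h3 : E.frob v 1 * (nrm v : ℂ) ^ (-((((E.weight : ℝ) / 2 : ℝ)) : ℂ)) =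
          conj (β v) := h1
      rw [h2, h3, Complex.add_re, Complex.conj_re]
      ring
    have hlaw : ∀ (Λ' : (ℝ → ℝ) → ℝ), (∀ φ : ℝ → ℝ, Continuous φ →
        Tendsto (X288.CX.mn fun v => φ (2 * (β v).re)) (𝓝[>] 0) (𝓝 (Λ' φ))) →
        HasLaw E Λ' := by
      intro Λ' h φ hφ
      rw [hmean']
      obtain ⟨Cφ, hCφ⟩ := (isCompact_Icc (a := (-2 : ℝ)) (b := 2)).exists_bound_of_continuousOn
        hφ.continuousOn
      have hb : ∀ v, |φ (2 * (β v).re)| ≤ Cφ := fun v => by
        have h2 := abs_le.1 ((Complex.abs_re_le_norm (β v)).trans (hβn v).le)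
        have := hCφ (2 * (β v).re) ⟨by linarith [h2.1], by linarith [h2.2]⟩
        rwa [Real.norm_eq_abs] at this
      obtain ⟨C', hC'⟩ := X288.CX.bdd_all (φ := fun v => φ (E.trace v)) (b := Cφ)
        (htrace.mono fun v hv => by
          rw [hv]
          exact hb v)
      have h1 := (X288.CX.mn_congr hC' hb (htrace.mono fun v hv => by rw [hv])).add (h φ hφ)
      rw [zero_add] at h1
      refine h1.congr fun ε => ?_
      ring
    -- the classification
    have hcycl : ∀ (M : ℕ) (ε : ℝ), 1 ≤ M → (ε = 1 ∨ ε = -1) → a M = ε →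
        Cyclotomic E (diff m) := by
      intro M ε hM hε haM
      obtain ⟨e, he, hee⟩ : ∃ e : ℤ, (e = 1 ∨ e = -1) ∧ (e : ℝ) = ε := by
        rcases hε with h | h
        · exact ⟨1, Or.inl rfl, by rw [h]; norm_num⟩
        · exact ⟨-1, Or.inr rfl, by rw [h]; norm_num⟩
      refine ⟨M, e, hM, he, fun n => ?_, fun j η hη => ?_⟩
      · have h1 := X288.CX.pd_period a hpd hε haM n
        have h2 : ((n : ℤ) + M) = ((n + M : ℕ) : ℤ) := by push_cast; ring
        rw [h2, hac, hac, ← hee] at h1
        have h3 : ((diff m (n + M) : ℤ) : ℝ) = e * (diff m n : ℤ) := by linarith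
        exact_mod_cast h3
      · unfold DensityZero
        rw [hmean']
        have hεc : ((e : ℤ) : ℂ) = ((ε : ℝ) : ℂ) := by
          rw [← hee]
          push_cast
          rfl
        set A : Set (Primes K) := {v | η ≤ ‖E.unit v j ^ M - (e : ℂ)‖} with hA
        set A' : Set (Primes K) := {v | η ≤ ‖β v ^ M - (ε : ℂ)‖} with hA'
        have hAA : ∀ᶠ v in cofinite, X288.CX.ind A v = X288.CX.ind A' v := by
          filter_upwards [hgood] with v hv
          have h1 := X288.CX.be_conj E.weight E.frob hv
          have h2 : E.unit v 0 = β v := by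
            unfold RankTwo.unit
            rw [hβ, hcast v]
            unfold X288.CX.be
            rw [if_pos hv]
            rfl
          have h3 : E.unit v 1 = conj (β v) := by
            unfold RankTwo.unit
            rw [hcast v]
            exact h1
          have h4 : ‖E.unit v j ^ M - (e : ℂ)‖ = ‖β v ^ M - (ε : ℂ)‖ := by
            rw [hεc]
            fin_cases j
            · simp only [Fin.zero_eta, Fin.isValue]
              rw [h2]
            · simp only [Fin.mk_one, Fin.isValue]
              rw [h3, ← map_pow]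
              have h5 : conj (β v ^ M) - (ε : ℂ) = conj (β v ^ M - (ε : ℂ)) := by
                rw [map_sub, Complex.conj_ofReal]
              rw [h5, RCLike.norm_conj]
          unfold X288.CX.ind
          have h5 : v ∈ A ↔ v ∈ A' := by
            rw [hA, hA', Set.mem_ofPred_eq, Set.mem_ofPred_eq, h4]
          simp only [h5]
        have hindA : (A.indicator fun _ => (1 : ℝ)) = X288.CX.ind A := by
          funext v
          unfold X288.CX.ind
          rw [Set.indicator_apply]
        rw [hindA]
        have hdiffA := X288.CX.mn_congr (X288.CX.ind_bound A) (X288.CX.ind_bound A') hAA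
        -- the mean square
        have hsq : Tendsto (X288.CX.mn fun v => ‖β v ^ M - (ε : ℂ)‖ ^ 2) (𝓝[>] 0) (𝓝 0) := by
          have hpt : ∀ v, ‖β v ^ M - (ε : ℂ)‖ ^ 2 = 2 + (-2 * ε) * (β v ^ (M : ℤ)).re := by
            intro v
            have h1 : ‖β v ^ M‖ ^ 2 = 1 := by rw [norm_pow, hβn, one_pow, one_pow]
            rw [← Complex.normSq_eq_norm_sq, Complex.normSq_sub, Complex.normSq_eq_norm_sq, h1,
              Complex.normSq_ofReal, Complex.conj_ofReal, Complex.re_mul_ofReal, zpow_natCast,
              X288.CX.sq_of_sign hε]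
            ring
          have h1 : Tendsto (fun x : ℝ => 2 + (-2 * ε) *
              X288.CX.mn (fun v => (β v ^ (M : ℤ)).re) x) (𝓝[>] 0)
              (𝓝 (2 + (-2 * ε) * ε)) := by
            have h2 := hlim M
            rw [haM] at h2
            exact (h2.const_mul _).const_add _
          have h2 : 2 + (-2 * ε) * ε = 0 := by
            have := X288.CX.sq_of_sign hε
            linear_combination (-2 : ℝ) * this
          rw [h2] at h1
          refine h1.congr' ?_
          filter_upwards [self_mem_nhdsWithin, X288.CX.mn_const (F := K) 2] with x hx h4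
          have h3 : (fun v => ‖β v ^ M - (ε : ℂ)‖ ^ 2) =
              fun v => (fun _ => (2 : ℝ)) v + (-2 * ε) * (β v ^ (M : ℤ)).re := by
            funext v
            exact hpt v
          rw [h3, X288.CX.mn_add (b := 2) (B := 2) (fun v => by simp) (fun v => by
            rw [abs_mul]
            have h5 := X288.CX.re_bound β hβn M v
            have h6 : |(-2 * ε)| = 2 := by
              rcases hε with h | h <;> rw [h] <;> norm_num
            rw [h6]
            linarith) hx, X288.CX.mn_const_mul, h4]
        have hzero : Tendsto (X288.CX.mn (X288.CX.ind A')) (𝓝[>] 0) (𝓝 0) := by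
          have hη2 : 0 < η ^ 2 := by positivity
          rw [Metric.tendsto_nhds]
          intro κ hκ
          have hb : ∀ v, ‖β v ^ M - (ε : ℂ)‖ ≤ 2 := by
            intro v
            refine (norm_sub_le _ _).trans ?_
            rw [norm_pow, hβn, one_pow, Complex.norm_real, Real.norm_eq_abs]
            have : |ε| = 1 := by
              rcases hε with h | h <;> rw [h] <;> norm_num
            rw [this]
            norm_num
          filter_upwards [hsq.eventually_lt_const (by positivity : (0 : ℝ) < η ^ 2 * κ / 4),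
            X288.CX.mn_cheb hb hη.le (by positivity : (0 : ℝ) < η ^ 2 * κ / 4)] with x h2 h3
          have h5 : 0 ≤ X288.CX.mn (X288.CX.ind A') x :=
            X288.CX.mn_nonneg (fun v => X288.CX.ind_nonneg _ _) x
          rw [Real.dist_eq, sub_zero, abs_of_nonneg h5]
          have h6 : η ^ 2 * X288.CX.mn (X288.CX.ind A') x < η ^ 2 * κ := by
            have h7 : η ^ 2 * X288.CX.mn (X288.CX.ind A') x ≤ η ^ 2 * κ / 4 + η ^ 2 * κ / 4 := by
              linarith
            have h8 : 0 < η ^ 2 * κ := by positivity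
            linarith
          exact lt_of_mul_lt_mul_left h6 hη2.le
        have h1 := hdiffA.add hzero
        rw [add_zero] at h1
        refine h1.congr fun x => ?_
        ring
    have hclass : Cosine E (diff m) ∨ Half E (diff m) ∨ Cyclotomic E (diff m) := by
      rcases X288.CX.classify a hpd hint with ⟨M, ε, hM, hε, haM⟩ | h0 | ⟨N, ε, hN, hε, h0⟩ |
        ⟨d, σ, hd, hσ, h0⟩
      · exact Or.inr (Or.inr (hcycl M ε hM hε haM))
      · left
        refine ⟨1, 0, le_refl _, Or.inl rfl, fun n hn => ?_, ?_⟩
        · have h1 := h0 n (by omega)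
          rw [hac] at h1
          have h2 : ((diff m n : ℤ) : ℝ) = 0 := by linarith
          rw [ite_self]
          exact_mod_cast h2
        · refine hlaw _ fun φ hφ => ?_
          refine X288.CX.ang_law (X288.CX.LC_fun _ 1) a (fun n => ?_) β hβn hlim φ hφ
          rw [X288.CX.LC_cos _ 1 le_rfl n]
          by_cases hn : n = 0
          · rw [if_pos hn, hn, hpd.one]
          · rw [if_neg hn, h0 n hn]
            simp
      · left
        obtain ⟨e, he, hee⟩ : ∃ e : ℤ, (e = 0 ∨ e = 1 ∨ e = -1) ∧ (e : ℝ) = ε := by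
          rcases hε with h | h
          · exact ⟨1, Or.inr (Or.inl rfl), by rw [h]; norm_num⟩
          · exact ⟨-1, Or.inr (Or.inr rfl), by rw [h]; norm_num⟩
        refine ⟨N, e, hN, he, fun n hn => ?_, ?_⟩
        · have h1 := h0 n (by omega)
          rw [hac, Nat.abs_cast] at h1
          by_cases hnN : n = N
          · rw [if_pos hnN]
            rw [if_pos (by exact_mod_cast hnN)] at h1
            have h2 : ((diff m n : ℤ) : ℝ) = e := by rw [hee]; linarith
            exact_mod_cast h2
          · rw [if_neg hnN]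
            rw [if_neg (fun h => hnN (by exact_mod_cast h))] at h1
            have h2 : ((diff m n : ℤ) : ℝ) = 0 := by linarith
            exact_mod_cast h2
        · refine hlaw _ fun φ hφ => ?_
          refine X288.CX.ang_law (X288.CX.LC_fun _ N) a (fun n => ?_) β hβn hlim φ hφ
          rw [X288.CX.LC_cos _ N hN n, hee]
          by_cases hn : n = 0
          · rw [if_pos hn, hn, hpd.one]
          · rw [if_neg hn, h0 n hn]
      · right; left
        obtain ⟨d', rfl⟩ : ∃ d' : ℕ, d = (d' : ℤ) := ⟨d.toNat, by omega⟩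
        have hd' : 1 ≤ d' := by omega
        obtain ⟨e, ψ, he, heψ, hee⟩ : ∃ (e : ℤ) (ψ : ℝ),
            (e = 1 ∧ ψ = 0 ∨ e = -1 ∧ ψ = Real.pi) ∧
            (σ = 1 ∧ ψ = 0 ∨ σ = -1 ∧ ψ = Real.pi) ∧ (e : ℝ) = σ := by
          rcases hσ with h | h
          · exact ⟨1, 0, Or.inl ⟨rfl, rfl⟩, Or.inl ⟨h, rfl⟩, by rw [h]; norm_num⟩
          · exact ⟨-1, Real.pi, Or.inr ⟨rfl, rfl⟩, Or.inr ⟨h, rfl⟩, by rw [h]; norm_num⟩
        refine ⟨d', e, ψ, hd', he, fun n hn => ?_, ?_⟩
        · have h1 := h0 n (by omega)
          rw [hac] at h1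
          have hdvd : ((d' : ℤ) ∣ (n : ℤ)) ↔ d' ∣ n := Int.natCast_dvd_natCast
          by_cases hdn : d' ∣ n
          · rw [if_pos hdn]
            rw [if_pos (hdvd.2 hdn), ← Int.natCast_div, zpow_natCast] at h1
            have h2 : ((diff m n : ℤ) : ℝ) = ((e ^ (n / d') : ℤ) : ℝ) := by
              push_cast
              rw [hee]
              linarith
            exact_mod_cast h2
          · rw [if_neg hdn]
            rw [if_neg (fun h => hdn (hdvd.1 h))] at h1
            have h2 : ((diff m n : ℤ) : ℝ) = 0 := by linarith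
            exact_mod_cast h2
        · refine hlaw _ fun φ hφ => ?_
          refine X288.CX.ang_law (X288.CX.LD_fun ψ d' hd') a (fun n => ?_) β hβn hlim φ hφ
          rw [X288.CX.LD_cos heψ d' hd' n]
          by_cases hn : n = 0
          · rw [if_pos hn, hn, hpd.one]
          · rw [if_neg hn, h0 n hn]
    refine ⟨m, hm0, fun n hn => ?_, hclass, fun h2 h4 => ?_⟩
    · rw [hm1 n hn, hm]
      simp
    · have hc2 : diff m 2 = m 2 - 1 := by
        simp only [diff]
        rw [hm0]
      have hc4 : diff m 4 = m 4 - m 2 := rfl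
      rcases hclass with ⟨N, ε, hN, hε, hc, hL⟩ | ⟨d, ε, ψ, hd, hε, hc, _⟩ | hcyc
      · right
        have h5 := hc 2 (by norm_num)
        rw [hc2] at h5
        by_cases hN2 : 2 = N
        · subst hN2
          rw [if_pos rfl] at h5
          have hε1 : ε = -1 := by
            rcases hε with h | h | h
            · omega
            · omega
            · exact h
          have hm2' : m 2 = 0 := by omega
          have hm1' : m 1 = 0 := by
            have := hc 1 le_rfl
            rw [if_neg (by norm_num)] at this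
            exact this
          have hstep : ∀ n, 1 ≤ n → m n = 0 ∧ m (n + 1) = 0 := by
            intro n hn
            induction n, hn using Nat.le_induction with
            | base => exact ⟨hm1', hm2'⟩
            | succ n hn ih =>
              refine ⟨ih.2, ?_⟩
              have h6 := hc (n + 2) (by omega)
              rw [if_neg (by omega)] at h6
              have h7 : diff m (n + 2) = m (n + 2) - m n := rfl
              rw [h7, ih.1, sub_zero] at h6
              exact h6
          refine ⟨fun n hn => (hstep n hn).1, fun φ hφ => ?_⟩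
          have h6 := hL φ hφ
          have h7 : cosineLaw (ε : ℝ) 2 φ = satoTateLaw φ := by
            unfold cosineLaw satoTateLaw
            rw [hε1]
            have h8 : ∀ θ : ℝ, φ (2 * Real.cos θ) * (1 + ((-1 : ℤ) : ℝ) *
                Real.cos (((2 : ℕ) : ℝ) * θ)) = 2 * (φ (2 * Real.cos θ) * Real.sin θ ^ 2) := by
              intro θ
              have h9 : Real.sin θ ^ 2 = 1 / 2 - Real.cos (2 * θ) / 2 :=
                Real.sin_sq_eq_half_sub θ
              rw [h9]
              push_cast
              ring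
            simp only [h8]
            rw [intervalIntegral.integral_const_mul]
            ring
          rw [h7] at h6
          exact h6
        · rw [if_neg hN2] at h5
          omega
      · exfalso
        have h5 := hc 2 (by norm_num)
        have h6 := hc 4 (by norm_num)
        rw [hc2] at h5
        rw [hc4] at h6
        have hd12 : d = 1 ∨ d = 2 := by
          by_cases hd2 : d ∣ 2
          · have := Nat.le_of_dvd (by norm_num) hd2
            omega
          · rw [if_neg hd2] at h5
            omega
        have hee : ε * ε = 1 := by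
          rcases hε with ⟨h, _⟩ | ⟨h, _⟩ <;> rw [h] <;> norm_num
        rcases hd12 with h | h
        · subst h
          rw [if_pos (one_dvd _)] at h5
          have : ε ^ (2 / 1) = 1 := by
            rw [Nat.div_one, pow_two]
            exact hee
          omega
        · subst h
          rw [if_pos (by norm_num)] at h6 h5
          have h7 : ε ^ (4 / 2) = 1 := by
            rw [show 4 / 2 = 2 by norm_num, pow_two]
            exact hee
          have h8 : ε ^ (2 / 2) = ε := by
            rw [show 2 / 2 = 1 by norm_num, pow_one]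
          rw [h8] at h5
          rcases hε with ⟨h, _⟩ | ⟨h, _⟩ <;> omega
      · exact Or.inl hcyc

end Pool.Agent.Results.MP_0d9be2_nt.SymmetricPowerOrders
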