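import Pool.Agent.X244.Tang.EC

/-!
# Tangential boundary values of the L-series of all elliptic curves over all number fields

One exceptional set of Hausdorff dimension zero, the same for all elliptic curves over all number
fields: outside it the `L`-series has on the edge `Re s = 3/2` of absolute convergence a boundary
value different from zero, taken in all approach regions that touch the edge to a finite order, and
the Euler product converges to it.  The starting file `UniversalBoundaryValues` has the same for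
angles (regions of order one).
-/

set_option autoImplicit false

namespace Pool.Agent.Results.MP_0d9be2_nt.TangentialBoundaryValues

open NumberField IsDedekindDomain Filter Topology

/-- `W v` is, for every finite place `v`, an integral model of `E` with discriminant minimal at
`v`. -/
def MinimalModels {K : Type} [Field K] [NumberField K] (E : WeierstrassCurve K)
    (W : HeightOneSpectrum (𝓞 K) → WeierstrassCurve (𝓞 K)) : Prop :=
  ∀ v : HeightOneSpectrum (𝓞 K),
    (∃ C : WeierstrassCurve.VariableChange K, C • (W v).map (algebraMap (𝓞 K) K) = E) ∧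
    ∀ W' : WeierstrassCurve (𝓞 K),
      (∃ C : WeierstrassCurve.VariableChange K, C • W'.map (algebraMap (𝓞 K) K) = E) →
      ∀ n : ℕ, (W v).Δ ∈ v.asIdeal ^ n → W'.Δ ∈ v.asIdeal ^ n

open Classical in
/-- The Euler factor at `v`, `(1 - a_v Nv^{-s} + Nv^{1-2s})⁻¹` if the reduction at `v` is good and
`(1 - a_v Nv^{-s})⁻¹` if it is bad, where `a_v` is `Nv` minus the number of affine points of the
reduction of `W v`. -/
noncomputable def localFactor {K : Type} [Field K] [NumberField K]
    (W : HeightOneSpectrum (𝓞 K) → WeierstrassCurve (𝓞 K)) (v : HeightOneSpectrum (𝓞 K))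
    (s : ℂ) : ℂ :=
  (1 - ((Ideal.absNorm v.asIdeal : ℂ)
        - (Nat.card {xy : (𝓞 K ⧸ v.asIdeal) × (𝓞 K ⧸ v.asIdeal) //
            ((W v).map (Ideal.Quotient.mk v.asIdeal)).toAffine.Equation xy.1 xy.2} : ℂ))
        * (Ideal.absNorm v.asIdeal : ℂ) ^ (-s)
    + (if (W v).Δ ∈ v.asIdeal then 0 else (Ideal.absNorm v.asIdeal : ℂ))
        * (Ideal.absNorm v.asIdeal : ℂ) ^ (-2 * s))⁻¹

/-- The `L`-series, as the Euler product over all finite places. -/
noncomputable def LSeries {K : Type} [Field K] [NumberField K]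
    (W : HeightOneSpectrum (𝓞 K) → WeierstrassCurve (𝓞 K)) (s : ℂ) : ℂ :=
  ∏' v : HeightOneSpectrum (𝓞 K), localFactor W v s

/-- The point `3/2 + iτ` of the edge of absolute convergence. -/
noncomputable def edgePoint (τ : ℝ) : ℂ := ((3 / 2 : ℝ) : ℂ) + (τ : ℂ) * Complex.I

/-- The approach region of order `k` at `3/2 + iτ`: the `s` with `Re s > 3/2` and
`|Im s - τ|^k ≤ C (Re s - 3/2)`. It is an angle for `k = 1`, and it touches the line `Re s = 3/2`
to the order `k` for `k ≥ 2`. -/
def approach (τ : ℝ) (k : ℕ) (C : ℝ) : Set ℂ :=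
  {s : ℂ | (3 / 2 : ℝ) < s.re ∧ |s.im - τ| ^ k ≤ C * (s.re - (3 / 2 : ℝ))}

/-- **Universal tangential boundary values.**  There is a set `T` of real numbers of Hausdorff
dimension `0` such that for every real `τ ∉ T`, every number field `K` and every elliptic curve `E`
over `K` there is a complex number `l ≠ 0` with the following properties.

* The product of the Euler factors of `L(E, s)` at `s = 3/2 + iτ` over the finite places of `K` of
norm less than `x` tends to `l` as `x → ∞`.
* `L(E, s)` tends to `l` as `s` tends to `3/2 + iτ` with `Re s > 3/2` and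
`|Im s - τ|^k ≤ C (Re s - 3/2)`, for every natural number `k` and every `C`. -/
theorem result : ∃ T : Set ℝ, dimH T = 0 ∧
    ∀ (K : Type) [Field K] [NumberField K] (E : WeierstrassCurve K) [E.IsElliptic]
      (W : HeightOneSpectrum (𝓞 K) → WeierstrassCurve (𝓞 K)) (_ : MinimalModels E W)
      (τ : ℝ) (_ : τ ∉ T), ∃ l : ℂ, l ≠ 0 ∧
        Tendsto (fun x : ℕ => ∏ᶠ v ∈ {v : HeightOneSpectrum (𝓞 K) | Ideal.absNorm v.asIdeal < x},
          localFactor W v (edgePoint τ)) atTop (𝓝 l) ∧
        ∀ (k : ℕ) (C : ℝ), Tendsto (LSeries W) (𝓝[approach τ k C] (edgePoint τ)) (𝓝 l) := by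
  refine ⟨Pool.Agent.X244.Tang.EC.TT, Pool.Agent.X244.Tang.EC.dimH_TT, ?_⟩
  intro K _ _ E hE W hW τ hτ
  have hlf : ∀ v s, localFactor W v s = Pool.Agent.W350.EdgeEC.lf W v s := by
    intro v s
    have h1 : (Nat.card {xy : (𝓞 K ⧸ v.asIdeal) × (𝓞 K ⧸ v.asIdeal) //
            ((W v).map (Ideal.Quotient.mk v.asIdeal)).toAffine.Equation xy.1 xy.2}) =
        Pool.Agent.H341R2.EC.aff (Pool.Agent.H341R2.EC.red v (W v)) := by
      unfold Pool.Agent.H341R2.EC.aff Pool.Agent.H341R2.EC.red
      refine Nat.card_congr (Equiv.subtypeEquivRight fun q => ?_)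
      exact WeierstrassCurve.Affine.equation_iff ..
    unfold localFactor Pool.Agent.W350.EdgeEC.lf Pool.Agent.H341R2.EC.trc
    rw [h1]
    unfold Pool.Agent.H921R2.TatePole.nm
    push_cast
    rfl
  obtain ⟨l, h1, h2, h3⟩ := Pool.Agent.X244.Tang.EC.universal E hE W
    (fun v => Pool.Agent.W350.EdgeEC.isMinAt_twist (hW v)) τ hτ
  refine ⟨l, h1, h2.congr fun x => ?_, fun k C => (h3 k C).congr fun s => ?_⟩
  · have hf : {v : HeightOneSpectrum (𝓞 K) | Ideal.absNorm v.asIdeal < x}.Finite :=
      Pool.Agent.W350.EdgeNF.hfin x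
    rw [finprod_mem_eq_finite_toFinset_prod _ hf]
    exact Finset.prod_congr rfl fun v _ => (hlf v _).symm
  · exact tprod_congr fun v => (hlf v s).symm

end Pool.Agent.Results.MP_0d9be2_nt.TangentialBoundaryValues
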